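import Pool.Agent.H91.VG.Main
import Pool.Agent.H38.VG.Asm
import Pool.Agent.H52.VG.Odd

/-!
# The Grothendieck group of Hodge lattices and transcendental lattices of Verra fourfolds

No theorem is assumed here.  A unimodular polarizable Hodge lattice (`HLat`, in
`Pool/Agent/H91/VG/Defs.lean`) is what the even cohomology of a smooth projective variety
modulo torsion is, with the Poincaré pairing and with its Hodge structures twisted to weight four.
`Coh` is the middle cohomology of a Verra fourfold: a unimodular Hodge lattice with
`h^{3,1} = 1` and with the Hodge-Riemann relations.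

In the free abelian group on all these Hodge lattices we divide by the relations which blow-ups
give, and we allow multiplication by the class of the affine line.  We prove that the class of the
even cohomology determines the transcendental lattice, rationally always and integrally if the
ring `O_X` is integrally closed.

Authors: helper91, helper38, helper52, helper82 (theorems), helper55 (this statement).
-/

namespace Pool.Agent.Results.MP_bb4c81_ag.HodgeLattices

open H91.VG

/-- Formal sums of unimodular polarizable Hodge lattices. -/
abbrev Sums : Type 1 := FreeAbelianGroup HLat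

/-- A Hodge lattice as a formal sum. -/
abbrev cl (V : HLat) : Sums := FreeAbelianGroup.of V

/-- The subgroup generated by the elements `[B] - [E] - ([W] - [Z])`, for all `W`, `Z`, `B`, `E`
such that `B` is related to `W` and `Z` as the cohomology of the blow-up of a variety `W` in a
subvariety `Z` of codimension `m + 1`, and `E` to `Z` as that of its exceptional divisor, a
projective bundle with fibres of dimension `m`. -/
def blowUps : AddSubgroup Sums :=
  AddSubgroup.closure {a | ∃ (W Z B E : HLat) (m : ℕ), BundleFormula Z E (m + 1) ∧
    BlowUpFormula W Z B m ∧ a = cl B - cl E - (cl W - cl Z)}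

/-- `Twist a b`: the formal sum `b` is the product of `a` with the class of the affine line: every
summand `[V]` is replaced by `[P] - [V]`, where `P` is a bundle of projective lines over `V`
(which may be different for different summands). -/
inductive Twist : Sums → Sums → Prop
  | line (V P : HLat) (h : BundleFormula V P 2) : Twist (cl V) (cl P - cl V)
  | zero : Twist 0 0
  | add {a b a' b' : Sums} : Twist a b → Twist a' b' → Twist (a + a') (b + b')
  | neg {a b : Sums} : Twist a b → Twist (-a) (-b)

/-- The product of the formal sum `a` with some power (the zeroth power is allowed) of the class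
of the affine line lies in the subgroup of the blow-up relations. -/
inductive Vanishes : Sums → Prop
  | rel {a : Sums} : a ∈ blowUps → Vanishes a
  | twist {a b : Sums} : Twist a b → Vanishes b → Vanishes a

/-- The lattice with the opposite form, `L(-1)`. -/
def opp (L : H91.VG.Lat) : H91.VG.Lat where
  V := L.V
  form := -L.form
  symm := fun x y => by
    show -(L.form x y) = -(L.form y x)
    rw [L.symm]

section Invariant

variable {A : Type} [AddCommGroup A] (χ : HLat → A)

theorem lift_blowUps
    (hχ : ∀ W Z B E m, BundleFormula Z E (m + 1) → BlowUpFormula W Z B m →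
      χ B + χ Z = χ W + χ E) {a : Sums} (ha : a ∈ blowUps) :
    FreeAbelianGroup.lift χ a = 0 := by
  have h : blowUps ≤ (FreeAbelianGroup.lift χ).ker := by
    rw [blowUps, AddSubgroup.closure_le]
    rintro a ⟨W, Z, B, E, m, h1, h2, rfl⟩
    rw [SetLike.mem_coe, AddMonoidHom.mem_ker]
    simp only [cl, map_sub, FreeAbelianGroup.lift_apply_of]
    have := hχ W Z B E m h1 h2
    rw [sub_sub_sub_eq, this, add_comm (χ W), sub_eq_zero]
  exact h ha

theorem lift_twist (lef : A →+ A)
    (hP : ∀ V P, BundleFormula V P 2 → χ P - χ V = lef (χ V)) {a b : Sums} (h : Twist a b) :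
    FreeAbelianGroup.lift χ b = lef (FreeAbelianGroup.lift χ a) := by
  induction h with
  | line V P h => simp only [cl, map_sub, FreeAbelianGroup.lift_apply_of, hP V P h]
  | zero => simp
  | add _ _ h1 h2 => rw [map_add, map_add, map_add, h1, h2]
  | neg _ h1 => rw [map_neg, map_neg, map_neg, h1]

theorem lift_vanishes
    (hχ : ∀ W Z B E m, BundleFormula Z E (m + 1) → BlowUpFormula W Z B m →
      χ B + χ Z = χ W + χ E) (lef : A →+ A) (hl : Function.Injective lef)
    (hP : ∀ V P, BundleFormula V P 2 → χ P - χ V = lef (χ V)) {a : Sums} (h : Vanishes a) :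
    FreeAbelianGroup.lift χ a = 0 := by
  induction h with
  | rel h => exact lift_blowUps χ hχ h
  | twist h _ h1 =>
    rw [lift_twist χ lef hP h] at h1
    exact hl (by rw [h1, map_zero])

end Invariant

theorem chi_eq {X : Coh} (c : Ctx X) {V W : HLat} (h : Vanishes (cl V - cl W)) :
    c.chi V = c.chi W := by
  have h1 := lift_vanishes (fun W => c.chi W) (by
    intro W Z B E m hE hB
    obtain ⟨fE, hLE, h0E, h1E⟩ := exists_bundle hE
    obtain ⟨f, hL, h11, h12, h21, h0, h1⟩ := exists_blowUp hB
    exact AmbData.chi_blow (c.amb W) (c.amb Z) (c.amb E) (c.amb B) m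
      fE (hLE X c.S) (h0E X) (h1E X) f (hL X c.S) (h11 X) (h12 X) (h21 X) (h0 X) (h1 X))
    (HermMod.lef c.Rg c.Kg c.io) HermMod.lef_injective (by
    intro V P hP
    obtain ⟨f, hL, h0, h1⟩ := exists_bundle hP
    exact AmbData.chi_P1 (c.amb V) (c.amb P) f (hL X c.S) (h0 X) (h1 X)) h
  simp only [cl, map_sub, FreeAbelianGroup.lift_apply_of] at h1
  exact sub_eq_zero.mp h1

/-- (1) Let `X`, `Y` be the middle cohomologies of two Verra fourfolds, contained in their even
cohomologies `V`, `W`.  If `[V] - [W]`, multiplied by some power of the class of the affine line,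
is a combination of the relations of blow-ups of Hodge lattices, then `T_X ⊗ ℚ`, `T_Y ⊗ ℚ` are
Hodge isometric, and `T_X`, `T_Y` are Hodge isometric if the ring `O_X` is integrally closed, for
instance if `End_Hdg(T_X) = ℤ` or if the rank of `T_X` is an odd prime.
(2) Let `T_X(-1)` be the transcendental lattice of a Mukai lattice `M` whose algebraic part
contains `U(2) ⊕ ⟨2⟩`.  Then `T_X(-1)` satisfies the conditions of Nikulin's theorem 1.14.4: for
all odd primes `p` the `p`-part of its discriminant group has at most `rk M - rk T_X - 2`
generators, and the `2`-part has at most `rk M - rk T_X - 1` generators or splits off `u(2)`. -/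
theorem result :
    (∀ (X Y : Coh) (V W : HLat), Middle X.toHLat V → Middle Y.toHLat W →
      Vanishes (cl V - cl W) →
      RatHodgeIsometric X.toHLat Y.toHLat ∧
      (OIntClosed X.toHLat ∨ EndZ X.toHLat ∨ (X.T.rk.Prime ∧ X.T.rk ≠ 2) →
        HodgeIsometric X.toHLat Y.toHLat)) ∧
    (∀ (X : Coh) (M : Mukai), TrMukai X M → AlgMukai M →
      (∀ p : ℕ, p.Prime → p ≠ 2 → (opp X.T).GenP p (M.rk - X.T.rk - 2)) ∧
      ((opp X.T).GenP 2 (M.rk - X.T.rk - 1) ∨ (opp X.T).SplitU2)) := by
  refine ⟨?_, ?_⟩
  · intro X Y V W hX hY h
    constructor
    · let c : Ctx X :=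
        { S := Coh.Sall
          hS := fun n hn => Coh.mem_Sall.mp hn
          hD := X.isDedekind_all }
      obtain ⟨z, hz, h1⟩ := c.exists_unit (Y := Y) hX (chi_eq c h)
      exact ratHodgeIsometric hY c.hS hz h1
    · intro h0
      have hO : OIntClosed X.toHLat := by
        rcases h0 with h0 | h0 | h0
        · exact h0
        · exact oIntClosed_of_endZ h0
        · exact oIntClosed_of_endZ (endZ_of_prime _ h0.1 h0.2)
      let c : Ctx X :=
        { S := ⊥
          hS := fun n hn => by
            rw [Submonoid.mem_bot] at hn
            rw [hn]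
            exact one_ne_zero
          hD := X.isDedekind_R hO }
      obtain ⟨z, hz, h1⟩ := c.exists_unit (Y := Y) hX (chi_eq c h)
      exact hodgeIsometric hY hz h1
  · rintro X M ⟨j, j1, j2, -⟩ ⟨e, f, v, he, hf, -, hee, hff, hef, -⟩
    have hp := Asm.prim_j M X j j1 j2
    have horth : ∀ n, M.Alg n → ∀ t, M.form n (j t) = 0 := fun n hn t =>
      (j2 (j t)).mp ⟨t, rfl⟩ n hn
    exact Nik.nik M.toLat (Asm.neg X.T) j M.even M.unimod hp e f (horth e he) (horth f hf)
      hee hff hef

end Pool.Agent.Results.MP_bb4c81_ag.HodgeLattices
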