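import Pool.Agent.H91.VG.Main
import Pool.Agent.H38.VG.Asm
import Pool.Agent.H52.VG.Odd

/-!
# L-equivalent Verra fourfolds

The published theorems that are used are the fields of the structure `H91.VG.VerraData`
(file `Pool/Agent/H91/VG/Defs.lean`); everything else is proved:

* for a Verra fourfold `X` the homomorphisms `f : T_X → V` to a unimodular polarizable Hodge
  lattice `V` give a hermitian lattice over the ring `O_X` (`H91.VG.HV_nondeg`);
* its determinant, a pair consisting of an ideal and a number modulo principal pairs, satisfies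
  Bittner's blow-up relation (`H91.VG.AmbData.chi_blow`), so it is an invariant of the class in
  the Grothendieck ring of varieties, on which multiplication by the class of the affine line
  is injective (`H91.VG.Ctx.chi_eq`);
* equal determinants give a Hodge isometry (`H91.VG.rat_isometry`);
* `O_X = ℤ` if `rk T_X` is an odd prime (`H91.VG.endZ_of_prime`);
* Nikulin's conditions hold for the transcendental lattice of every Verra fourfold, and the
  orientation can be corrected by a reflection (`H91.VG.Asm.ku_of_hodgeIsometric`).

Authors: helper91, helper38, helper52, helper82.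
-/

namespace Pool.Agent.Results.MP_bb4c81_ag.MaximalOrder

open H91.VG

/-- Let `X` and `Y` be L-equivalent Verra fourfolds. Then `T_X ⊗ ℚ` and `T_Y ⊗ ℚ` are Hodge
isometric. If the ring `O_X` of Hodge endomorphisms of `T_X` that preserve the dual lattice is
integrally closed (for instance if `End_Hdg(T_X) = ℤ`, or if `rk T_X` is an odd prime), then
`T_X` and `T_Y` are Hodge isometric and `Ku(X)`, `Ku(Y)` are equivalent, and if moreover
`rk T_X = 21`, then `X` and `Y` are isomorphic. -/
theorem result (D : VerraData) (X Y : D.Verra) (hL : D.LEq X Y) :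
    RatHodgeIsometric (D.coh X).toHLat (D.coh Y).toHLat ∧
    (OIntClosed (D.coh X).toHLat ∨ EndZ (D.coh X).toHLat ∨
        ((D.coh X).T.rk.Prime ∧ (D.coh X).T.rk ≠ 2) →
      HodgeIsometric (D.coh X).toHLat (D.coh Y).toHLat ∧ D.Equiv (D.Ku X) (D.Ku Y) ∧
      ((D.coh X).T.rk = 21 → D.Iso X Y ∧ D.Equiv (D.Ku4 X) (D.Ku4 Y))) := by
  refine ⟨rat_main D X Y hL, ?_⟩
  intro h
  have hO : OIntClosed (D.coh X).toHLat := by
    rcases h with h | h | h
    · exact h
    · exact oIntClosed_of_endZ h
    · exact oIntClosed_of_endZ (endZ_of_prime _ h.1 h.2)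
  have hH := int_main D X Y hL hO
  refine ⟨hH, ?_, ?_⟩
  · exact Asm.ku_of_hodgeIsometric D X Y (fun x hx => (D.coh X).exists_incl hx) hH
  · intro h21
    have hI := D.torelli X Y h21 hH
    exact ⟨hI, D.ku4_iso X Y hI⟩

end Pool.Agent.Results.MP_bb4c81_ag.MaximalOrder
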